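import Pool.Agent.Helper70.MB.Goals

open MeasureTheory Set Metric
open scoped ENNReal Topology
open Pool.Agent.Results.MP_91ee6f_gt

namespace Pool.Agent.Helper70.MB

lemma NN_add_le {n : ℕ} {f g : En n → ℝ} (hf : Ad f) (hg : Ad g) :
    NN (sx n) (fun x => f x + g x) ≤ 2 * NN (sx n) f + 2 * NN (sx n) g := by
  unfold NN
  rw [← integral_const_mul, ← integral_const_mul, ← integral_add (hf.2.2.const_mul 2)
    (hg.2.2.const_mul 2)]
  refine integral_mono_of_nonneg (Filter.Eventually.of_forall fun ξ =>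
    mul_nonneg (br_rpow_pos ξ _).le (sq_nonneg _))
    ((hf.2.2.const_mul 2).add (hg.2.2.const_mul 2)) (Filter.Eventually.of_forall fun ξ => ?_)
  simp only
  rw [hat_add hf.2.1 hg.2.1]
  have h1 : ‖hat f ξ + hat g ξ‖ ^ 2 ≤ 2 * ‖hat f ξ‖ ^ 2 + 2 * ‖hat g ξ‖ ^ 2 := by
    have h2 := norm_add_le (hat f ξ) (hat g ξ)
    nlinarith [norm_nonneg (hat f ξ + hat g ξ), sq_nonneg (‖hat f ξ‖ - ‖hat g ξ‖),
      norm_nonneg (hat f ξ), norm_nonneg (hat g ξ)]
  nlinarith [br_rpow_pos ξ (sx n)]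

lemma NN_const_mul {n : ℕ} (t c : ℝ) (f : En n → ℝ) :
    NN t (fun x => c * f x) = c ^ 2 * NN t f := by
  unfold NN
  rw [← integral_const_mul]
  congr 1
  ext ξ
  rw [hat_const_mul, norm_mul, mul_pow, Complex.norm_real, Real.norm_eq_abs, sq_abs]
  ring

lemma Ad.const_mul {n : ℕ} {f : En n → ℝ} (hf : Ad f) (c : ℝ) : Ad (fun x => c * f x) := by
  refine ⟨continuous_const.mul hf.1, hf.2.1.const_mul c, ?_⟩
  refine (hf.2.2.const_mul (c ^ 2)).congr (Filter.Eventually.of_forall fun ξ => ?_)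
  simp only
  rw [hat_const_mul, norm_mul, mul_pow, Complex.norm_real, Real.norm_eq_abs, sq_abs]
  ring

lemma Ad.add {n : ℕ} {f g : En n → ℝ} (hf : Ad f) (hg : Ad g) : Ad (fun x => f x + g x) := by
  refine ⟨hf.1.add hg.1, hf.2.1.add hg.2.1, ?_⟩
  refine ((hf.2.2.const_mul 2).add (hg.2.2.const_mul 2)).mono' ?_
    (Filter.Eventually.of_forall fun ξ => ?_)
  · exact ((continuous_br_rpow _).mul
      ((continuous_hat (hf.2.1.add hg.2.1)).norm.pow 2)).aestronglyMeasurable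
  · rw [Real.norm_eq_abs, abs_of_nonneg (mul_nonneg (br_rpow_pos ξ _).le (sq_nonneg _)),
      hat_add hf.2.1 hg.2.1]
    have h1 : ‖hat f ξ + hat g ξ‖ ^ 2 ≤ 2 * ‖hat f ξ‖ ^ 2 + 2 * ‖hat g ξ‖ ^ 2 := by
      have h2 := norm_add_le (hat f ξ) (hat g ξ)
      nlinarith [norm_nonneg (hat f ξ + hat g ξ), sq_nonneg (‖hat f ξ‖ - ‖hat g ξ‖),
        norm_nonneg (hat f ξ), norm_nonneg (hat g ξ)]
    simp only [Pi.add_apply]
    nlinarith [br_rpow_pos ξ (sx n)]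

theorem apri (hSC : SCAL) (hPU : PAIRU) : APRI := by
  intro n hn τ hτ x₀
  obtain ⟨C, hC, hS⟩ := hSC n hn
  obtain ⟨hU, -⟩ := hPU n hn τ hτ
  refine ⟨2 * (C * NN (sx n) (potential τ)) + 2 * C, fun ρ hρ => ?_⟩
  have hρ0 : 0 < ρ := by linarith
  obtain ⟨h1, h2, h3⟩ := hS x₀ ρ hρ0
  obtain ⟨h4, h5, -⟩ := h1 (potential τ) hU
  have h6 : (fun x => cut x₀ ρ x * gg τ x) =
      fun x => cut x₀ ρ x * potential τ x + -1 * cut x₀ ρ x := by
    ext x
    unfold gg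
    ring
  rw [h6]
  refine (NN_add_le h4 (h2.const_mul (-1))).trans ?_
  rw [NN_const_mul]
  have h7 : max 1 ρ⁻¹ = 1 := max_eq_left (inv_le_one_of_one_le₀ hρ)
  rw [h7, one_pow, mul_one] at h5
  have h8 := h3 hρ
  have h9 : (1 : ℝ) ≤ ρ ^ n := one_le_pow₀ hρ
  have h10 : 0 ≤ NN (sx n) (potential τ) := NN_nonneg _ _
  have h11 : C * NN (sx n) (potential τ) ≤ C * NN (sx n) (potential τ) * ρ ^ n :=
    le_mul_of_one_le_right (by positivity) h9
  nlinarith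

end Pool.Agent.Helper70.MB
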