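import Pool.Agent.Helper70.MB.Goals

open MeasureTheory Set Metric
open scoped ENNReal Topology
open Pool.Agent.Results.MP_91ee6f_gt

namespace Pool.Agent.Helper70.MB

lemma aint {n : ℕ} {τ : Measure (En n)} [IsFiniteMeasure τ] (hgc : Continuous (gg τ)) (x₀ : En n)
    {ρ : ℝ} (hρ : 0 < ρ) (k : ℕ) (hk : k ≠ 0) :
    Integrable (fun x => cut x₀ ρ x ^ k * |gg τ x|) := by
  have h1 := isCut_cut x₀ hρ
  refine Continuous.integrable_of_hasCompactSupport ((h1.1.continuous.pow k).mul hgc.abs) ?_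
  refine HasCompactSupport.mul_right ?_
  refine HasCompactSupport.of_support_subset_isCompact h1.2 fun x hx => ?_
  apply subset_tsupport
  rw [Function.mem_support] at hx ⊢
  intro h
  apply hx
  simp [h, hk]

/-- `∫ cut x₀ ρ |g| ≤ ∫ cut x₀ (4ρ)² |g|` -/
lemma cut_le_sq {n : ℕ} (x₀ : En n) {ρ ρ' : ℝ} (hρ : 0 < ρ) (h : 2 * ρ ≤ ρ') (x : En n) :
    cut x₀ ρ x ≤ cut x₀ ρ' x ^ 2 := by
  by_cases hx : ‖x - x₀‖ ≤ ρ'
  · rw [cut_one (by linarith) hx, one_pow]
    exact cut_le_one _ _ _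
  · rw [not_le] at hx
    rw [cut_zero hρ (by linarith)]
    positivity

theorem zero (hSA : STEPA) (hAP : APRI) (hSB : STEPB) (hTA : TAIL) (hIN : INTP) (hSC : SCAL)
    (hKE : KEYF) (hBD : BDD) (hSL : SEQL) (hSS : SEQS) : ZERO := by
  intro n hn
  obtain ⟨CA, hCA, hA⟩ := hSA n hn
  obtain ⟨CB, hCB, hB⟩ := hSB n hn
  obtain ⟨CI, hCI, hI⟩ := hIN n hn
  obtain ⟨CK', hCK', hK⟩ := hKE n hn
  obtain ⟨CD, hCD, hD⟩ := hBD n hn
  obtain ⟨M₁, hM₁, hT⟩ := hTA n hn CB hCB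
  -- one constant
  obtain ⟨C, hC, hCA', hCB', hCI', hCB2⟩ : ∃ C > 0, CA ≤ C ∧ CB ≤ C ∧ CI ≤ C ∧
      CB * 2 ^ (2 * n + 1) ≤ C := by
    refine ⟨CA + CB + CI + CB * 2 ^ (2 * n + 1), by positivity, ?_, ?_, ?_, ?_⟩ <;>
      nlinarith [mul_pos hCB (pow_pos (two_pos : (0 : ℝ) < 2) (2 * n + 1))]
  obtain ⟨M, hM, hseqL⟩ := hSL n C M₁ hC hM₁
  obtain ⟨ε, hε, hseqS⟩ := hSS n C hC
  obtain ⟨L, hL, hseqL'⟩ := hseqL ε hε
  have hM1 : 1 ≤ M := hM₁.trans hM
  have hM0 : 0 < M := by linarith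
  refine ⟨max L (M / 2), lt_max_of_lt_left hL, fun X τ hKT x₀ hx₀ => ?_⟩
  have hfin : IsFiniteMeasure τ := hKT.fin
  have hLX : ∀ r : ℝ, r ≤ max L (M / 2) → closedBall x₀ r ⊆ X := fun r hr =>
    (closedBall_subset_closedBall hr).trans hx₀
  -- continuity of `g`
  have hgc : Continuous (gg τ) := by
    unfold gg potential
    have h1 : Continuous fun x : En n => ∫ y, Real.exp (-dist x y) ∂τ := by
      refine continuous_of_dominated (bound := fun _ => 1) ?_ ?_ (integrable_const _) ?_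
      · intro x
        exact (by fun_prop : Continuous fun y : En n => Real.exp (-dist x y)).aestronglyMeasurable
      · intro x
        refine Filter.Eventually.of_forall fun y => ?_
        rw [Real.norm_eq_abs, abs_of_pos (Real.exp_pos _), Real.exp_le_one_iff]
        linarith [dist_nonneg (x := x) (y := y)]
      · refine Filter.Eventually.of_forall fun y => ?_
        fun_prop
    exact h1.sub continuous_const
  obtain ⟨z, hz⟩ : ∃ z : ℝ → ℝ, z = fun ρ => NN (sx n) (fun x => cut x₀ ρ x * gg τ x) := ⟨_, rfl⟩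
  obtain ⟨a, ha⟩ : ∃ a : ℝ → ℝ, a = fun ρ => ∫ x, cut x₀ ρ x ^ 2 * |gg τ x| := ⟨_, rfl⟩
  have hz0 : ∀ ρ, 0 ≤ z ρ := fun ρ => by rw [hz]; exact NN_nonneg _ _
  have ha0 : ∀ ρ, 0 ≤ a ρ := fun ρ => by
    rw [ha]
    exact integral_nonneg fun x => by positivity
  have hAd : ∀ ρ : ℝ, 0 < ρ → Ad (fun x => cut x₀ ρ x * gg τ x) := fun ρ hρ =>
    (hK τ hfin x₀ ρ hρ).1
  have hNN1 : ∀ ρ : ℝ, 0 < ρ → NN (sx n - 1) (fun x => cut x₀ ρ x * gg τ x) ≤ z ρ := by
    intro ρ hρ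
    rw [hz]
    exact (hAd ρ hρ).NN_mono (by linarith) le_rfl
  -- large scales
  have h1 : ∀ ρ : ℝ, 1 ≤ ρ → z (ρ / 4) ≤ C * ρ ^ n + C / ρ ^ 2 * z ρ := by
    intro ρ hρ
    have h2 := hA X τ hKT x₀ ρ hρ
    have h3 : CA * ρ ^ n ≤ C * ρ ^ n := by gcongr
    have h4 : CA / ρ ^ 2 * z ρ ≤ C / ρ ^ 2 * z ρ := by
      have := hz0 ρ
      gcongr
    rw [hz] at h4 ⊢
    linarith
  have h2 : ∃ B : ℝ, ∀ ρ : ℝ, 1 ≤ ρ → z ρ ≤ B * ρ ^ n := by
    obtain ⟨B, hB⟩ := hAP n hn τ hfin x₀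
    exact ⟨B, fun ρ hρ => by rw [hz]; exact hB ρ hρ⟩
  have h3 : ∀ ρ : ℝ, M₁ ≤ ρ → ρ / 2 ≤ L → z (ρ / 4) + a (ρ / 4) ≤ C / ρ ^ 2 * z ρ := by
    intro ρ hρ hρL
    have hρ1 : 1 ≤ ρ := hM₁.trans hρ
    have hρ0 : 0 < ρ := by linarith
    have h4 := hB X τ hKT x₀ ρ hρ0 (hLX _ (hρL.trans (le_max_left _ _))) fun y hy => by
      have := hT ρ hρ X τ hKT x₀ 0 y (by simpa using hy)
      simp only [pow_zero, div_one, Finset.range_zero, Finset.sum_empty, mul_zero,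
        add_zero] at this
      linarith
    have h5 : max 1 ρ⁻¹ = 1 := max_eq_left (inv_le_one_of_one_le₀ hρ1)
    rw [h5, one_pow, mul_one] at h4
    have h6 : CB * ρ⁻¹ ^ 2 * NN (sx n - 1) (fun x => cut x₀ ρ x * gg τ x) ≤ C / ρ ^ 2 * z ρ := by
      have h7 := hNN1 ρ hρ0
      have h8 : CB * ρ⁻¹ ^ 2 ≤ C / ρ ^ 2 := by
        rw [inv_pow, ← div_eq_mul_inv]
        gcongr
      exact mul_le_mul h8 h7 (NN_nonneg _ _) (by positivity)
    rw [hz, ha]
    rw [hz] at h6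
    linarith
  obtain ⟨h4, h5⟩ := hseqL' z a hz0 ha0 h1 h2 h3
  -- small scales
  obtain ⟨Φ, hΦ⟩ : ∃ Φ : ℕ → ℝ, Φ = fun j => z (M / 4 ^ j) + a (M / 4 ^ j) := ⟨_, rfl⟩
  have hΦ0 : ∀ j, 0 ≤ Φ j := fun j => by
    rw [hΦ]; exact add_nonneg (hz0 _) (ha0 _)
  have hrec : ∀ j : ℕ, 1 ≤ j →
      C * ∑ i ∈ Finset.range j, 4 ^ ((2 * n + 1) * (i + 1)) * Φ i ≤ 1 / 4 →
      ∀ θ : ℝ, 0 < θ → θ ≤ 1 →
      Φ (j + 1) ≤ C * 4 ^ ((2 * n + 2) * j) * (θ * Φ j + C / θ ^ n * Φ (j - 1) ^ 2) := by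
    intro j hj hsum θ hθ hθ1
    obtain ⟨ρ, hρdef⟩ : ∃ ρ : ℝ, ρ = M / 4 ^ j := ⟨_, rfl⟩
    have hρ0 : 0 < ρ := by rw [hρdef]; positivity
    have h4j : (1 : ℝ) ≤ 4 ^ j := one_le_pow₀ (by norm_num)
    have hρM : ρ ≤ M := by
      rw [hρdef]
      exact div_le_self hM0.le h4j
    have hinv : ρ⁻¹ ≤ 4 ^ j := by
      rw [hρdef, inv_div]
      exact div_le_self (by positivity) hM1
    have hmax : max 1 ρ⁻¹ ≤ 4 ^ j := max_le h4j hinv
    have htail : ∀ y, ‖y - x₀‖ ≤ ρ / 2 → CB * tl τ x₀ ρ y ≤ 1 / 2 := by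
      intro y hy
      rw [hρdef] at hy ⊢
      have h6 := hT M hM X τ hKT x₀ j y hy
      have h7 : CB * ∑ i ∈ Finset.range j, 2 ^ (2 * n + 1) * (4 ^ (i + 1) / M) ^ (2 * n + 1) *
          ∫ x, cut x₀ (M / 4 ^ i) x ^ 2 * |gg τ x| ≤
          C * ∑ i ∈ Finset.range j, 4 ^ ((2 * n + 1) * (i + 1)) * Φ i := by
        rw [Finset.mul_sum, Finset.mul_sum]
        refine Finset.sum_le_sum fun i _ => ?_
        have h8 : (∫ x, cut x₀ (M / 4 ^ i) x ^ 2 * |gg τ x|) ≤ Φ i := by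
          rw [hΦ]
          have := hz0 (M / 4 ^ i)
          simp only [ha] at *
          linarith
        have h9 : (4 ^ (i + 1) / M) ^ (2 * n + 1) ≤ (4 : ℝ) ^ ((2 * n + 1) * (i + 1)) := by
          rw [mul_comm (2 * n + 1) (i + 1), pow_mul]
          have h11 : (4 : ℝ) ^ (i + 1) / M ≤ 4 ^ (i + 1) := div_le_self (by positivity) hM1
          exact pow_le_pow_left₀ (by positivity) h11 _
        have h10 : 0 ≤ (∫ x, cut x₀ (M / 4 ^ i) x ^ 2 * |gg τ x|) :=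
          integral_nonneg fun x => by positivity
        calc CB * (2 ^ (2 * n + 1) * (4 ^ (i + 1) / M) ^ (2 * n + 1) *
              ∫ x, cut x₀ (M / 4 ^ i) x ^ 2 * |gg τ x|)
            = (CB * 2 ^ (2 * n + 1)) * ((4 ^ (i + 1) / M) ^ (2 * n + 1) *
              ∫ x, cut x₀ (M / 4 ^ i) x ^ 2 * |gg τ x|) := by ring
          _ ≤ C * (4 ^ ((2 * n + 1) * (i + 1)) * Φ i) := by
              refine mul_le_mul hCB2 (mul_le_mul h9 h8 h10 (by positivity)) (by positivity) hC.le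
      linarith
    have h6 := hB X τ hKT x₀ ρ hρ0 (hLX _ (le_trans (by linarith) (le_max_right _ _))) htail
    have h7 := hI _ (hAd ρ hρ0) θ hθ hθ1
    have h8 : (∫ x, |cut x₀ ρ x * gg τ x|) ≤ Φ (j - 1) := by
      have h9 : (∫ x, |cut x₀ ρ x * gg τ x|) ≤ a (M / 4 ^ (j - 1)) := by
        rw [ha]
        refine integral_mono ?_ ?_ fun x => ?_
        · exact (hAd ρ hρ0).2.1.abs
        · exact aint hgc x₀ (by positivity) 2 two_ne_zero
        · simp only [abs_mul, abs_of_nonneg (cut_nonneg x₀ ρ x)]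
          refine mul_le_mul_of_nonneg_right (cut_le_sq x₀ hρ0 ?_ x) (abs_nonneg _)
          have h10 : M / 4 ^ (j - 1) = 4 * ρ := by
            rw [hρdef]
            obtain ⟨k, rfl⟩ : ∃ k, j = k + 1 := ⟨j - 1, by omega⟩
            rw [Nat.add_sub_cancel, pow_succ]
            field_simp
          rw [h10]
          linarith
      rw [hΦ]
      have := hz0 (M / 4 ^ (j - 1))
      simp only
      linarith
    have h9 : Φ (j + 1) ≤ CB * (ρ⁻¹ ^ 2 * (max 1 ρ⁻¹) ^ (2 * n)) *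
        NN (sx n - 1) (fun x => cut x₀ ρ x * gg τ x) := by
      rw [hΦ, hz, ha]
      have h10 : M / 4 ^ (j + 1) = ρ / 4 := by
        rw [hρdef, pow_succ]
        field_simp
      simp only [h10]
      exact h6
    have h10 : CB * (ρ⁻¹ ^ 2 * (max 1 ρ⁻¹) ^ (2 * n)) ≤ C * 4 ^ ((2 * n + 2) * j) := by
      have h11 : ρ⁻¹ ^ 2 * (max 1 ρ⁻¹) ^ (2 * n) ≤ (4 : ℝ) ^ ((2 * n + 2) * j) := by
        have h12 : (4 : ℝ) ^ ((2 * n + 2) * j) = (4 ^ j) ^ 2 * (4 ^ j) ^ (2 * n) := by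
          rw [← pow_mul, ← pow_mul, ← pow_add]
          congr 1
          ring
        rw [h12]
        have : 0 ≤ max 1 ρ⁻¹ := le_max_of_le_left zero_le_one
        gcongr
      exact mul_le_mul hCB' h11 (by positivity) hC.le
    have h11 : NN (sx n - 1) (fun x => cut x₀ ρ x * gg τ x) ≤
        θ * Φ j + C / θ ^ n * Φ (j - 1) ^ 2 := by
      refine h7.trans ?_
      have h12 : NN (sx n) (fun x => cut x₀ ρ x * gg τ x) ≤ Φ j := by
        rw [hΦ]
        have := ha0 (M / 4 ^ j)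
        rw [hρdef]
        simp only [hz] at *
        linarith
      have h13 : 0 ≤ (∫ x, |cut x₀ ρ x * gg τ x|) := integral_nonneg fun x => abs_nonneg _
      gcongr
    exact h9.trans (mul_le_mul h10 h11 (NN_nonneg _ _) (by positivity))
  have hfinal := hseqS Φ hΦ0 (by rw [hΦ]; simpa using h4) (by rw [hΦ]; simpa using h5) hrec
  -- conclusion
  by_contra hne
  obtain ⟨η, hη, hηball⟩ : ∃ η > 0, ∃ δ > 0, ∀ x, ‖x - x₀‖ ≤ δ → η ≤ |gg τ x| := by
    have h6 : 0 < |gg τ x₀| := abs_pos.2 hne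
    have h7 := Metric.continuousAt_iff.1 (hgc.abs.continuousAt (x := x₀)) (|gg τ x₀| / 2)
      (by positivity)
    obtain ⟨δ, hδ, h8⟩ := h7
    refine ⟨|gg τ x₀| / 2, by positivity, δ / 2, by positivity, fun x hx => ?_⟩
    have h9 := h8 (x := x) (by rw [dist_eq_norm]; linarith)
    rw [Real.dist_eq] at h9
    linarith [(abs_lt.1 h9).1]
  obtain ⟨δ, hδ, hηδ⟩ := hηball
  obtain ⟨v, hv, hvdef⟩ : ∃ v > 0, v = (volume : Measure (En n)).real (ball 0 1) := by
    refine ⟨_, ?_, rfl⟩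
    rw [measureReal_def]
    exact ENNReal.toReal_pos (measure_ball_pos _ _ one_pos).ne' measure_ball_lt_top.ne
  have hlow : ∀ j : ℕ, M / 4 ^ j ≤ δ → η * v * M ^ n ≤ 1 / 4 ^ j := by
    intro j hj
    have hr0 : 0 < M / 4 ^ j := by positivity
    have h6 : η * (volume : Measure (En n)).real (closedBall x₀ (M / 4 ^ j)) ≤ a (M / 4 ^ j) := by
      rw [ha]
      calc η * (volume : Measure (En n)).real (closedBall x₀ (M / 4 ^ j))
          = ∫ x, (closedBall x₀ (M / 4 ^ j)).indicator (fun _ => η) x := by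
            rw [integral_indicator isClosed_closedBall.measurableSet, setIntegral_const,
              smul_eq_mul, mul_comm]
        _ ≤ _ := by
            refine integral_mono ?_ (aint hgc x₀ hr0 2 two_ne_zero) fun x => ?_
            · exact (integrable_indicator_iff isClosed_closedBall.measurableSet).2
                (integrableOn_const (measure_closedBall_lt_top).ne)
            · by_cases hx : x ∈ closedBall x₀ (M / 4 ^ j)
              · rw [indicator_of_mem hx]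
                rw [mem_closedBall, dist_eq_norm] at hx
                simp only [cut_one hr0 hx, one_pow, one_mul]
                exact hηδ x (hx.trans hj)
              · rw [indicator_of_notMem hx]
                positivity
    have h7 : (volume : Measure (En n)).real (closedBall x₀ (M / 4 ^ j)) =
        (M / 4 ^ j) ^ n * v := by
      rw [hvdef, measureReal_def, measureReal_def, Measure.addHaar_closedBall _ _ hr0.le,
        ENNReal.toReal_mul, ENNReal.toReal_ofReal (by positivity)]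
      simp
    have h8 : a (M / 4 ^ j) ≤ 1 / 4 ^ ((n + 1) * j) := by
      refine le_trans ?_ (hfinal j)
      rw [hΦ]
      have := hz0 (M / 4 ^ j)
      simp only
      linarith
    rw [h7] at h6
    have h9 : (4 : ℝ) ^ ((n + 1) * j) = (4 ^ j) ^ n * 4 ^ j := by
      rw [← pow_mul, ← pow_add]
      congr 1
      ring
    have h10 : η * ((M / 4 ^ j) ^ n * v) ≤ 1 / ((4 ^ j) ^ n * 4 ^ j) := by
      rw [← h9]
      exact h6.trans h8
    have h11 : 0 < ((4 : ℝ) ^ j) ^ n := by positivity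
    calc η * v * M ^ n = η * ((M / 4 ^ j) ^ n * v) * (4 ^ j) ^ n := by
          rw [div_pow]
          field_simp
      _ ≤ 1 / ((4 ^ j) ^ n * 4 ^ j) * (4 ^ j) ^ n := by gcongr
      _ = 1 / 4 ^ j := by field_simp
  have hpos : 0 < η * v * M ^ n := by positivity
  have htend : Filter.Tendsto (fun j : ℕ => (1 : ℝ) / 4 ^ j) Filter.atTop (𝓝 0) := by
    have := tendsto_pow_atTop_nhds_zero_of_lt_one (r := (1 / 4 : ℝ)) (by norm_num) (by norm_num)
    refine this.congr fun j => ?_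
    rw [div_pow, one_pow]
  have h6 : ∀ᶠ j : ℕ in Filter.atTop, (1 : ℝ) / 4 ^ j < min (η * v * M ^ n) (δ / M) :=
    htend.eventually (gt_mem_nhds (lt_min hpos (by positivity)))
  obtain ⟨j, hj⟩ := h6.exists
  have h7 : M / 4 ^ j ≤ δ := by
    have := hj.le.trans (min_le_right _ _)
    rw [le_div_iff₀ hM0] at this
    calc M / 4 ^ j = 1 / 4 ^ j * M := by ring
      _ ≤ δ := this
  have h8 := hlow j h7
  have h9 := hj.trans_le (min_le_left _ _)
  linarith

end Pool.Agent.Helper70.MB
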