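import Pool.Agent.Helper70.MB.Final
import Pool.Agent.Helper70.MB.Zero
import Pool.Agent.Helper70.MB.Apri
import Pool.Agent.Helper31.MB.Symb
import Pool.Agent.Helper51.MB.Young
import Pool.Agent.Helper96.MB.Prod
import Pool.Agent.Helper50.MB.COMM
import Pool.Agent.Helper17.MB.CUTF
import Pool.Agent.Helper85.MB.Cuts
import Pool.Agent.Helper24.MB.Mult
import Pool.Agent.Helper31.MB.Scal
import Pool.Agent.Helper85.MB.Intp
import Pool.Agent.Helper49.MB.MOMV
import Pool.Agent.Helper56.MB.MOMC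
import Pool.Agent.Helper8.MB.HEAT
import Pool.Agent.Helper26.MB.OFFD
import Pool.Agent.Helper24.MB.FK
import Pool.Agent.Helper17.MB.PAIRU
import Pool.Agent.Helper67.MB.Pair1
import Pool.Agent.Helper8.MB.KAPI
import Pool.Agent.Helper58.MB.KEYF
import Pool.Agent.Helper40.MB.BDD
import Pool.Agent.Helper99.MB.StepA
import Pool.Agent.Helper62.MB.StepB
import Pool.Agent.Helper42.MB.TAIL
import Pool.Agent.Helper39.MB.Seql
import Pool.Agent.Helper47.MBP.Seqs
import Pool.Agent.Helper30.MB.DENS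

open MeasureTheory Set Metric
open scoped ENNReal Topology
open Pool.Agent.Results.MP_91ee6f_gt

namespace Pool.Agent.Helper70.MB

theorem fSYMB : SYMB := Pool.Agent.Helper31.MB.symb
theorem fCUTF : CUTF := Pool.Agent.Helper17.MB.cutf
theorem fCUTS : CUTS := Pool.Agent.Helper85.MB.cuts
theorem fYOUNG : YOUNG := Pool.Agent.Helper51.MB.young
theorem fPROD : PROD := Pool.Agent.Helper96.MB.prod fCUTF
theorem fMULT : MULT := Pool.Agent.Helper24.MB.mult fYOUNG fSYMB fCUTF fPROD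
theorem fCOMM : COMM := Pool.Agent.Helper50.MB.comm fYOUNG fSYMB fCUTF fPROD fMULT
theorem fSCAL : SCAL :=
  Pool.Agent.Helper31.MB.scal fCUTF fCUTS fMULT fCOMM
theorem fINTP : INTP := Pool.Agent.Helper85.MB.intp
theorem fMOMV : MOMV := Pool.Agent.Helper49.MB.momv
theorem fMOMC : MOMC := Pool.Agent.Helper56.MB.momc
theorem fHEAT : HEAT := Pool.Agent.Helper8.MB.heat
theorem fOFFD : OFFD := Pool.Agent.Helper26.MB.offd fHEAT fMOMV fMOMC
theorem fFK : FK := Pool.Agent.Helper24.MB.fk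
theorem fPAIRU : PAIRU := Pool.Agent.Helper17.MB.pairu fFK
theorem fPAIR1 : PAIR1 := Pool.Agent.Helper67.MB.pair1 fCUTF fCUTS
theorem fKAPI : KAPI := Pool.Agent.Helper8.MB.kapi
theorem fKEYF : KEYF :=
  Pool.Agent.Helper58.MB.goalKEYF fSCAL fOFFD fPAIRU fPAIR1 fKAPI
theorem fBDD : BDD := Pool.Agent.Helper40.MB.bdd
theorem fSTEPA : STEPA := Pool.Agent.Helper99.MB.stepA fSCAL fKEYF fBDD fKAPI fFK
theorem fSTEPB : STEPB := Pool.Agent.Helper62.MB.stepB fSCAL fKEYF fBDD fFK
theorem fAPRI : APRI := apri fSCAL fPAIRU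
theorem fTAIL : TAIL := Pool.Agent.Helper42.MB.tail fBDD fKAPI
theorem fSEQL : SEQL := Pool.Agent.Helper39.MBSeql.seql
theorem fSEQS : SEQS := Pool.Agent.Helper47.MBP.seqs
theorem fZERO : ZERO :=
  zero fSTEPA fAPRI fSTEPB fTAIL fINTP fSCAL fKEYF fBDD fSEQL fSEQS
theorem fDENS : DENS :=
  Pool.Agent.Helper30.MB.dens fZERO fCUTF fKEYF fBDD fKAPI

/-- The bulk theorem. -/
theorem bulk (n : ℕ) (hn : 1 ≤ n) :
    ∃ L C c : ℝ, 0 < L ∧ 0 < C ∧ 0 < c ∧
      (∀ X : Set (En n), IsCompact X → X.Nonempty →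
        ∃ (w : Measure (En n)) (D : ℝ), IsTheMaximising X w ∧ MaxDiversity X D ∧
          (∀ x : En n, closedBall x L ⊆ X → x ∈ w.support) ∧
          ∀ (r : ℝ) (A : Set (En n)), L ≤ r → MeasurableSet A →
            (∀ x ∈ A, closedBall x r ⊆ X) →
            |(n.factorial : ℝ) * (volume : Measure (En n)).real (ball 0 1) * D * w.real A -
              (volume : Measure (En n)).real A| ≤
              C * Real.exp (-(c * r)) * (volume : Measure (En n)).real A ∧
            (Odd n → (n.factorial : ℝ) * (volume : Measure (En n)).real (ball 0 1) * D *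
              w.real A = (volume : Measure (En n)).real A)) ∧
      (∀ R : ℝ, L < R → ∀ w : Measure (En n), IsTheMaximising (cBall n R) w →
        closedBall 0 (R - L) ⊆ w.support ∧ ¬ IsFinUnionSpheres w.support) ∧
      (∀ (ℓ : ℝ) (w : Measure (En n)), IsTheMaximising (cube n ℓ) w →
        ∀ x : En n, (∀ i, L ≤ x i ∧ x i ≤ ℓ - L) → x ∈ w.support) :=
  bulk_of fFK fDENS n hn

end Pool.Agent.Helper70.MB
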