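import Pool.Agent.Helper70.MM.AllA

/-!
Project MB: deep points of a compact set `X ⊂ ℝⁿ` belong to the support of its maximising measure.
Definitions and basic facts.
-/

open MeasureTheory Set Metric
open scoped ENNReal FourierTransform Topology ContDiff
open Pool.Agent.Results.MP_91ee6f_gt

namespace Pool.Agent.Helper70.MB

/-- `1 + |2πξ|²` -/
noncomputable def br {n : ℕ} (ξ : En n) : ℝ := 1 + (2 * Real.pi * ‖ξ‖) ^ 2

/-- the exponent `s = (n+1)/2` -/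
noncomputable def sx (n : ℕ) : ℝ := ((n : ℝ) + 1) / 2

/-- Fourier transform of a real function -/
noncomputable def hat {n : ℕ} (f : En n → ℝ) (ξ : En n) : ℂ := 𝓕 (fun x : En n => (f x : ℂ)) ξ

/-- `∫ (1+|2πξ|²)^t |f̂(ξ)|² dξ` -/
noncomputable def NN {n : ℕ} (t : ℝ) (f : En n → ℝ) : ℝ := ∫ ξ, br ξ ^ t * ‖hat f ξ‖ ^ 2

/-- admissible: continuous, integrable, and `∫ (1+|2πξ|²)^s |f̂|² < ∞` -/
def Ad {n : ℕ} (f : En n → ℝ) : Prop :=
  Continuous f ∧ Integrable f ∧ Integrable (fun ξ : En n => br ξ ^ sx n * ‖hat f ξ‖ ^ 2)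

/-- `Re ∫ (1+|2πξ|²)^s conj ĥ f̂` -/
noncomputable def pair {n : ℕ} (h f : En n → ℝ) : ℝ :=
  ∫ ξ, br ξ ^ sx n * ((starRingEnd ℂ) (hat h ξ) * hat f ξ).re

/-- `C_n = ∫ e^{-|x|} dx` -/
noncomputable def CK (n : ℕ) : ℝ := ∫ x : En n, Real.exp (-‖x‖)

/-- off-diagonal bound `|z|^{-(2n+1)} e^{-|z|/2}` -/
noncomputable def kap {n : ℕ} (z : En n) : ℝ := Real.exp (-(‖z‖ / 2)) / ‖z‖ ^ (2 * n + 1)

/-- smooth with compact support -/
def IsCut {n : ℕ} (χ : En n → ℝ) : Prop := ContDiff ℝ ∞ χ ∧ HasCompactSupport χ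

/-- a smooth bump: `1` on the unit ball, `0` outside the ball of radius `2` -/
noncomputable def bump (n : ℕ) : ContDiffBump (0 : En n) := ⟨1, 2, one_pos, one_lt_two⟩

/-- the bump function -/
noncomputable def chi {n : ℕ} (x : En n) : ℝ := bump n x

/-- `χ((x-x₀)/ρ)` -/
noncomputable def cut {n : ℕ} (x₀ : En n) (ρ : ℝ) (x : En n) : ℝ := chi (ρ⁻¹ • (x - x₀))

/-- `g = K τ - 1` -/
noncomputable def gg {n : ℕ} (τ : Measure (En n)) (x : En n) : ℝ := potential τ x - 1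

/-- Kuhn-Tucker conditions: `τ` is a finite measure on `X`, its potential is `≥ 1` on `X` and
`= 1` on its support. -/
structure KT {n : ℕ} (X : Set (En n)) (τ : Measure (En n)) : Prop where
  fin : IsFiniteMeasure τ
  compl : τ Xᶜ = 0
  ge : ∀ x ∈ X, 1 ≤ potential τ x
  eq : ∀ x ∈ τ.support, potential τ x = 1

/-- the tail `∫ κ(x-y) (1-χ_ρ(x)) |g(x)| dx` -/
noncomputable def tl {n : ℕ} (τ : Measure (En n)) (x₀ : En n) (ρ : ℝ) (y : En n) : ℝ :=
  ∫ x, kap (x - y) * ((1 - cut x₀ ρ x) * |gg τ x|)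

lemma one_le_br {n : ℕ} (ξ : En n) : 1 ≤ br ξ := by
  unfold br
  nlinarith [sq_nonneg (2 * Real.pi * ‖ξ‖)]

lemma br_pos {n : ℕ} (ξ : En n) : 0 < br ξ := lt_of_lt_of_le one_pos (one_le_br ξ)

lemma continuous_br {n : ℕ} : Continuous (br : En n → ℝ) := by
  unfold br
  fun_prop

lemma continuous_br_rpow {n : ℕ} (t : ℝ) : Continuous fun ξ : En n => br ξ ^ t :=
  continuous_br.rpow_const fun ξ => Or.inl (br_pos ξ).ne'

lemma br_rpow_pos {n : ℕ} (ξ : En n) (t : ℝ) : 0 < br ξ ^ t := Real.rpow_pos_of_pos (br_pos ξ) t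

lemma br_rpow_mono {n : ℕ} (ξ : En n) {t t' : ℝ} (h : t ≤ t') : br ξ ^ t ≤ br ξ ^ t' :=
  Real.rpow_le_rpow_of_exponent_le (one_le_br ξ) h

lemma integrable_ofReal {n : ℕ} {f : En n → ℝ} (hf : Integrable f) :
    Integrable (fun x : En n => (f x : ℂ)) := hf.ofReal

lemma continuous_hat {n : ℕ} {f : En n → ℝ} (hf : Integrable f) : Continuous (hat f) :=
  VectorFourier.fourierIntegral_continuous Real.continuous_fourierChar
    (by simpa using continuous_inner) (integrable_ofReal hf)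

lemma norm_hat_le {n : ℕ} (f : En n → ℝ) (ξ : En n) : ‖hat f ξ‖ ≤ ∫ x, |f x| := by
  refine (VectorFourier.norm_fourierIntegral_le_integral_norm _ _ _ _ _).trans (le_of_eq ?_)
  refine integral_congr_ae (Filter.Eventually.of_forall fun x => ?_)
  simp

lemma hat_eq {n : ℕ} (f : En n → ℝ) (ξ : En n) :
    hat f ξ = ∫ x, Complex.exp ((↑(-2 * Real.pi * inner ℝ x ξ) * Complex.I)) * (f x : ℂ) := by
  unfold hat
  rw [Real.fourier_eq']
  rfl

lemma NN_nonneg {n : ℕ} (t : ℝ) (f : En n → ℝ) : 0 ≤ NN t f :=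
  integral_nonneg fun ξ => mul_nonneg (br_rpow_pos ξ t).le (sq_nonneg _)

lemma Ad.integrable_le {n : ℕ} {f : En n → ℝ} (hf : Ad f) {t : ℝ} (ht : t ≤ sx n) :
    Integrable (fun ξ : En n => br ξ ^ t * ‖hat f ξ‖ ^ 2) := by
  refine hf.2.2.mono' ?_ (Filter.Eventually.of_forall fun ξ => ?_)
  · exact ((continuous_br_rpow t).mul ((continuous_hat hf.2.1).norm.pow 2)).aestronglyMeasurable
  · rw [Real.norm_eq_abs, abs_of_nonneg (mul_nonneg (br_rpow_pos ξ t).le (sq_nonneg _))]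
    exact mul_le_mul_of_nonneg_right (br_rpow_mono ξ ht) (sq_nonneg _)

lemma Ad.NN_mono {n : ℕ} {f : En n → ℝ} (hf : Ad f) {t t' : ℝ} (h : t ≤ t') (ht : t' ≤ sx n) :
    NN t f ≤ NN t' f :=
  integral_mono (hf.integrable_le (h.trans ht)) (hf.integrable_le ht) fun ξ =>
    mul_le_mul_of_nonneg_right (br_rpow_mono ξ h) (sq_nonneg _)

lemma hat_add {n : ℕ} {f g : En n → ℝ} (hf : Integrable f) (hg : Integrable g) (ξ : En n) :
    hat (fun x => f x + g x) ξ = hat f ξ + hat g ξ := by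
  rw [hat_eq, hat_eq, hat_eq, ← integral_add]
  · congr 1
    ext x
    push_cast
    ring
  all_goals
    refine (integrable_ofReal ‹_›).bdd_mul (c := 1) ?_ ?_
    · exact (by fun_prop : Continuous fun x : En n =>
        Complex.exp ((↑(-2 * Real.pi * inner ℝ x ξ) * Complex.I))).aestronglyMeasurable
    · exact Filter.Eventually.of_forall fun x => (Complex.norm_exp_ofReal_mul_I _).le

lemma hat_const_mul {n : ℕ} (c : ℝ) (f : En n → ℝ) (ξ : En n) :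
    hat (fun x => c * f x) ξ = c * hat f ξ := by
  rw [hat_eq, hat_eq, ← integral_const_mul]
  congr 1
  ext x
  push_cast
  ring

lemma chi_nonneg {n : ℕ} (x : En n) : 0 ≤ chi x := (bump n).nonneg

lemma chi_le_one {n : ℕ} (x : En n) : chi x ≤ 1 := (bump n).le_one

lemma chi_one {n : ℕ} {x : En n} (h : ‖x‖ ≤ 1) : chi x = 1 :=
  (bump n).one_of_mem_closedBall (by rw [mem_closedBall_zero_iff]; exact h)

lemma chi_zero {n : ℕ} {x : En n} (h : 2 ≤ ‖x‖) : chi x = 0 :=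
  (bump n).zero_of_le_dist (by rw [dist_zero_right]; exact h)

lemma isCut_chi {n : ℕ} : IsCut (chi : En n → ℝ) :=
  ⟨(bump n).contDiff, (bump n).hasCompactSupport⟩

lemma cut_nonneg {n : ℕ} (x₀ : En n) (ρ : ℝ) (x : En n) : 0 ≤ cut x₀ ρ x := chi_nonneg _

lemma cut_le_one {n : ℕ} (x₀ : En n) (ρ : ℝ) (x : En n) : cut x₀ ρ x ≤ 1 := chi_le_one _

lemma norm_inv_smul_sub {n : ℕ} {ρ : ℝ} (hρ : 0 < ρ) (x x₀ : En n) :
    ‖ρ⁻¹ • (x - x₀)‖ = ‖x - x₀‖ / ρ := by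
  rw [norm_smul, norm_inv, Real.norm_eq_abs, abs_of_pos hρ, div_eq_inv_mul]

lemma cut_one {n : ℕ} {x₀ : En n} {ρ : ℝ} (hρ : 0 < ρ) {x : En n} (h : ‖x - x₀‖ ≤ ρ) :
    cut x₀ ρ x = 1 :=
  chi_one (by rw [norm_inv_smul_sub hρ, div_le_one hρ]; exact h)

lemma cut_zero {n : ℕ} {x₀ : En n} {ρ : ℝ} (hρ : 0 < ρ) {x : En n} (h : 2 * ρ ≤ ‖x - x₀‖) :
    cut x₀ ρ x = 0 :=
  chi_zero (by rw [norm_inv_smul_sub hρ, le_div_iff₀ hρ]; exact h)

lemma isCut_cut {n : ℕ} (x₀ : En n) {ρ : ℝ} (hρ : 0 < ρ) : IsCut (cut x₀ ρ) := by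
  refine ⟨?_, ?_⟩
  · unfold cut
    exact isCut_chi.1.comp (by fun_prop)
  · refine HasCompactSupport.of_support_subset_isCompact
      (isCompact_closedBall x₀ (2 * ρ)) fun x hx => ?_
    rw [mem_closedBall, dist_eq_norm]
    by_contra h
    exact hx (cut_zero hρ (not_le.1 h).le)

lemma kap_nonneg {n : ℕ} (z : En n) : 0 ≤ kap z := by unfold kap; positivity

lemma kap_neg {n : ℕ} (z : En n) : kap (-z) = kap z := by unfold kap; rw [norm_neg]

end Pool.Agent.Helper70.MB
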