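import Pool.Agent.Helper70.MB.Goals

open MeasureTheory Set Metric
open scoped ENNReal Topology
open Pool.Agent.Results.MP_91ee6f_gt

namespace Pool.Agent.Helper70.MB

/-- The maximising measure gives Kuhn-Tucker data. -/
lemma kt_of_max {n : ℕ} {X : Set (En n)} (hX : IsCompact X) {μ : Measure X} {c : ℝ} (hc : 0 < c)
    (hmax : IsMaximising μ) (h1 : ∀ x ∈ X, c ≤ potential (inEn μ) x)
    (h2 : ∀ x ∈ (inEn μ).support, potential (inEn μ) x = c) :
    KT X (ENNReal.ofReal c⁻¹ • inEn μ) := by
  have hemb : MeasurableEmbedding (Subtype.val : X → En n) :=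
    MeasurableEmbedding.subtype_coe hX.isClosed.measurableSet
  have hprobμ : IsProbabilityMeasure μ := hmax.1
  have hprob : IsProbabilityMeasure (inEn μ) :=
    Measure.isProbabilityMeasure_map hemb.measurable.aemeasurable
  have hci : 0 < c⁻¹ := inv_pos.2 hc
  have hpot : ∀ x, potential (ENNReal.ofReal c⁻¹ • inEn μ) x = c⁻¹ * potential (inEn μ) x := by
    intro x
    unfold potential
    rw [integral_smul_measure, ENNReal.toReal_ofReal hci.le, smul_eq_mul]
  have hsupp : (ENNReal.ofReal c⁻¹ • inEn μ).support = (inEn μ).support := by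
    ext x
    rw [Measure.mem_support_iff_forall, Measure.mem_support_iff_forall]
    refine forall₂_congr fun U _ => ?_
    rw [Measure.smul_apply, smul_eq_mul]
    have h1 : ENNReal.ofReal c⁻¹ ≠ 0 := by simpa using hc
    rw [pos_iff_ne_zero, pos_iff_ne_zero, mul_ne_zero_iff]
    exact ⟨fun h => h.2, fun h => ⟨h1, h⟩⟩
  refine ⟨?_, ?_, ?_, ?_⟩
  · exact Measure.smul_finite _ ENNReal.ofReal_ne_top
  · rw [Measure.smul_apply, smul_eq_mul]
    have : inEn μ Xᶜ = 0 := by
      unfold inEn
      rw [hemb.map_apply]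
      have : (Subtype.val : X → En n) ⁻¹' Xᶜ = ∅ := by
        ext x
        simp
      rw [this, measure_empty]
    rw [this, mul_zero]
  · intro x hx
    rw [hpot, ← div_eq_inv_mul, le_div_iff₀ hc, one_mul]
    exact h1 x hx
  · intro x hx
    rw [hsupp] at hx
    rw [hpot, h2 x hx, inv_mul_cancel₀ hc.ne']

/-- Every point of `[0, ρ]` is the norm of a point of the closed ball. -/
lemma not_isFinUnionSpheres {n : ℕ} (hn : 1 ≤ n) {S : Set (En n)} {ρ : ℝ} (hρ : 0 < ρ)
    (h : closedBall (0 : En n) ρ ⊆ S) : ¬ IsFinUnionSpheres S := by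
  rintro ⟨F, hF, hS⟩
  have hnt : Nontrivial (En n) := by
    have : Nonempty (Fin n) := ⟨⟨0, by omega⟩⟩
    infer_instance
  have hsub : Icc 0 ρ ⊆ F := by
    intro r hr
    obtain ⟨x, hx⟩ : (sphere (0 : En n) r).Nonempty := NormedSpace.sphere_nonempty.2 hr.1
    have hx' : ‖x‖ = r := by simpa using hx
    have h1 : x ∈ S := h (by rw [mem_closedBall_zero_iff, hx']; exact hr.2)
    rw [hS, mem_iUnion₂] at h1
    obtain ⟨r', hr', h2⟩ := h1
    rw [mem_sphere_zero_iff_norm, hx'] at h2
    rwa [h2]
  exact (Icc_infinite hρ) (hF.subset hsub)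

theorem bulk_of (hFK : FK) (hD : DENS) (n : ℕ) (hn : 1 ≤ n) :
    ∃ L C c : ℝ, 0 < L ∧ 0 < C ∧ 0 < c ∧
      (∀ X : Set (En n), IsCompact X → X.Nonempty →
        ∃ (w : Measure (En n)) (D : ℝ), IsTheMaximising X w ∧ MaxDiversity X D ∧
          (∀ x : En n, closedBall x L ⊆ X → x ∈ w.support) ∧
          ∀ (r : ℝ) (A : Set (En n)), L ≤ r → MeasurableSet A →
            (∀ x ∈ A, closedBall x r ⊆ X) →
            |(n.factorial : ℝ) * (volume : Measure (En n)).real (ball 0 1) * D * w.real A -
              (volume : Measure (En n)).real A| ≤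
              C * Real.exp (-(c * r)) * (volume : Measure (En n)).real A ∧
            (Odd n → (n.factorial : ℝ) * (volume : Measure (En n)).real (ball 0 1) * D *
              w.real A = (volume : Measure (En n)).real A)) ∧
      (∀ R : ℝ, L < R → ∀ w : Measure (En n), IsTheMaximising (cBall n R) w →
        closedBall 0 (R - L) ⊆ w.support ∧ ¬ IsFinUnionSpheres w.support) ∧
      (∀ (ℓ : ℝ) (w : Measure (En n)), IsTheMaximising (cube n ℓ) w →
        ∀ x : En n, (∀ i, L ≤ x i ∧ x i ≤ ℓ - L) → x ∈ w.support) := by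
  obtain ⟨L, C, c, hL, hC, hc, hden⟩ := hD n hn
  obtain ⟨-, hCK, hCKeq, -, -⟩ := hFK n hn
  obtain ⟨L₁, hL₁L, hL₁⟩ : ∃ L₁ ≥ L, C * Real.exp (-(c * L₁)) ≤ 1 / 2 := by
    refine ⟨max L (Real.log (2 * C) / c), le_max_left _ _, ?_⟩
    have h1 : Real.log (2 * C) ≤ c * max L (Real.log (2 * C) / c) := by
      have := le_max_right L (Real.log (2 * C) / c)
      rw [div_le_iff₀ hc] at this
      linarith
    have h2 : Real.exp (-(c * max L (Real.log (2 * C) / c))) ≤ (2 * C)⁻¹ := by
      rw [← Real.exp_log (show 0 < 2 * C by positivity), ← Real.exp_neg]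
      exact Real.exp_le_exp.2 (by rw [Real.exp_log (by positivity)]; linarith)
    calc C * Real.exp (-(c * max L (Real.log (2 * C) / c))) ≤ C * (2 * C)⁻¹ := by gcongr
      _ = 1 / 2 := by field_simp
  have hL₁0 : 0 < L₁ := by linarith
  -- the main statement
  have hmain : ∀ X : Set (En n), IsCompact X → X.Nonempty →
        ∃ (w : Measure (En n)) (D : ℝ), IsTheMaximising X w ∧ MaxDiversity X D ∧
          (∀ x : En n, closedBall x (L₁ + 1) ⊆ X → x ∈ w.support) ∧
          ∀ (r : ℝ) (A : Set (En n)), L₁ + 1 ≤ r → MeasurableSet A →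
            (∀ x ∈ A, closedBall x r ⊆ X) →
            |(n.factorial : ℝ) * (volume : Measure (En n)).real (ball 0 1) * D * w.real A -
              (volume : Measure (En n)).real A| ≤
              C * Real.exp (-(c * r)) * (volume : Measure (En n)).real A ∧
            (Odd n → (n.factorial : ℝ) * (volume : Measure (En n)).real (ball 0 1) * D *
              w.real A = (volume : Measure (En n)).real A) := by
    intro X hX hXne
    obtain ⟨μ, cc, hcc, hmax, hdiv, huniq, hk1, hk2⟩ := MM.fEXMAX n X hX hXne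
    have hkt := kt_of_max hX hcc hmax hk1 hk2
    have hci : 0 < cc⁻¹ := inv_pos.2 hcc
    have hprobμ : IsProbabilityMeasure μ := hmax.1
    have hemb : MeasurableEmbedding (Subtype.val : X → En n) :=
      MeasurableEmbedding.subtype_coe hX.isClosed.measurableSet
    have hprob : IsProbabilityMeasure (inEn μ) :=
      Measure.isProbabilityMeasure_map hemb.measurable.aemeasurable
    have hreal : ∀ A : Set (En n), (ENNReal.ofReal cc⁻¹ • inEn μ).real A =
        cc⁻¹ * (inEn μ).real A := by
      intro A
      rw [measureReal_def, Measure.smul_apply, smul_eq_mul, ENNReal.toReal_mul,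
        ENNReal.toReal_ofReal hci.le, measureReal_def]
    refine ⟨inEn μ, cc⁻¹, ⟨μ, rfl, fun ν => ⟨huniq ν, fun h => h ▸ hmax⟩⟩, ?_, ?_, ?_⟩
    · intro ν hν q
      rw [huniq ν hν]
      exact hdiv q
    · intro x hx
      rw [Measure.mem_support_iff_forall]
      intro U hU
      obtain ⟨δ, hδ, hδU⟩ := Metric.mem_nhds_iff.1 hU
      have hsub : ∀ y ∈ ball x (min δ 1), closedBall y L₁ ⊆ X := by
        intro y hy z hz
        apply hx
        rw [mem_closedBall] at hz ⊢
        rw [mem_ball] at hy
        have h1 := dist_triangle z y x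
        have h2 := min_le_right δ 1
        linarith
      obtain ⟨h1, -⟩ := hden X _ hX hkt L₁ (ball x (min δ 1)) hL₁L measurableSet_ball hsub
      have hvol : 0 < (volume : Measure (En n)).real (ball x (min δ 1)) := by
        rw [measureReal_def]
        exact ENNReal.toReal_pos (measure_ball_pos _ _ (by positivity)).ne' measure_ball_lt_top.ne
      rw [hreal] at h1
      have h2 : 0 < (inEn μ).real (ball x (min δ 1)) := by
        by_contra hcon
        rw [not_lt] at hcon
        have h3 : (inEn μ).real (ball x (min δ 1)) = 0 := le_antisymm hcon measureReal_nonneg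
        rw [h3, mul_zero, mul_zero, zero_sub, abs_neg, abs_of_pos hvol] at h1
        nlinarith
      have h3 : 0 < (inEn μ) (ball x (min δ 1)) := by
        rw [measureReal_def] at h2
        exact (ENNReal.toReal_pos_iff.1 h2).1
      exact lt_of_lt_of_le h3 (measure_mono ((ball_subset_ball (min_le_left _ _)).trans hδU))
    · intro r A hr hA hAX
      obtain ⟨h1, h2⟩ := hden X _ hX hkt r A (by linarith) hA hAX
      rw [hreal] at h1 h2
      have h3 : (n.factorial : ℝ) * (volume : Measure (En n)).real (ball 0 1) * cc⁻¹ *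
          (inEn μ).real A = CK n * (cc⁻¹ * (inEn μ).real A) := by
        rw [hCKeq]; ring
      rw [h3]
      exact ⟨h1, h2⟩
  have hdeep : ∀ X : Set (En n), IsCompact X → X.Nonempty → ∀ w : Measure (En n),
      IsTheMaximising X w → ∀ x : En n, closedBall x (L₁ + 1) ⊆ X → x ∈ w.support := by
    intro X hX hXne w hw
    obtain ⟨w', D, hw', -, h1, -⟩ := hmain X hX hXne
    obtain ⟨μ, rfl, hμ⟩ := hw
    obtain ⟨μ', rfl, hμ'⟩ := hw'
    obtain rfl : μ = μ' := (hμ' μ).1 ((hμ μ).2 rfl)
    exact h1
  refine ⟨L₁ + 1, C, c, by linarith, hC, hc, hmain, ?_, ?_⟩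
  · intro R hR w hw
    have h1 : closedBall 0 (R - (L₁ + 1)) ⊆ w.support := by
      intro x hx
      refine hdeep (cBall n R) (isCompact_closedBall _ _)
        ⟨0, mem_closedBall_self (by linarith)⟩ w hw x fun y hy => ?_
      unfold cBall
      rw [mem_closedBall] at hx hy ⊢
      have := dist_triangle y x 0
      linarith
    exact ⟨h1, not_isFinUnionSpheres hn (by linarith) h1⟩
  · intro ℓ w hw x hx
    have hcl : IsCompact (cube n ℓ) := by
      have h1 : cube n ℓ = (EuclideanSpace.equiv (Fin n) ℝ).symm '' (Set.univ.pi fun _ => Icc 0 ℓ) := by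
        ext y
        simp only [cube, mem_setOf_eq, mem_image, mem_univ_pi, mem_Icc]
        constructor
        · intro h
          exact ⟨EuclideanSpace.equiv (Fin n) ℝ y, h, by simp⟩
        · rintro ⟨z, hz, rfl⟩
          exact hz
      rw [h1]
      exact (isCompact_univ_pi fun _ => isCompact_Icc).image
        (EuclideanSpace.equiv (Fin n) ℝ).symm.continuous
    have hsub : closedBall x (L₁ + 1) ⊆ cube n ℓ := by
      intro y hy i
      rw [mem_closedBall, dist_eq_norm] at hy
      have h1 : |y i - x i| ≤ ‖y - x‖ := by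
        have := EuclideanSpace.norm_eq (y - x)
        rw [this]
        refine Real.le_sqrt_of_sq_le ?_
        rw [sq_abs]
        have h2 : (y i - x i) ^ 2 = ‖(y - x) i‖ ^ 2 := by
          rw [Real.norm_eq_abs, sq_abs]
          rfl
        rw [h2]
        exact Finset.single_le_sum (f := fun j => ‖(y - x) j‖ ^ 2) (fun j _ => by positivity)
          (Finset.mem_univ i)
      have h3 := hx i
      have h4 := abs_le.1 (h1.trans hy)
      exact ⟨by linarith [h4.1], by linarith [h4.2]⟩
    exact hdeep (cube n ℓ) hcl ⟨x, hsub (mem_closedBall_self (by linarith))⟩ w hw x hsub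

end Pool.Agent.Helper70.MB
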