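import Pool.Agent.Helper70.MB.Base

/-!
Project MB: for every `n ≥ 1` there is `L` such that for every compact `X ⊂ ℝⁿ` all points of `X`
at distance `> L` from the complement belong to the support of the maximising measure of `X`;
there the measure is uniform up to a relative error `C e^{-c depth}`, and exactly uniform if `n`
is odd.

Notation: `p = br^s`, `s = (n+1)/2`, so that the Fourier transform of `K(x) = e^{-|x|}` is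
`C_n / p` (`FK`).  `pair h f = Re ∫ p conj ĥ f̂` is the inner product of the Sobolev space `H^s`,
for which `K` is the reproducing kernel.  Each `def NAME : Prop` is a goal; its docstring contains
the complete proof.  Other goals may be used as hypotheses as stated in the packet.
-/

open MeasureTheory Set Metric
open scoped ENNReal FourierTransform Topology ContDiff
open Pool.Agent.Results.MP_91ee6f_gt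

namespace Pool.Agent.Helper70.MB

/-- Young's inequality `L² * L¹ ⊂ L²`.
PROOF.  For fixed `a` (substitution `ξ = ζ - a`), `∫ F(ζ) f(ζ-a) dζ ≤ ‖F‖₂ ‖f‖₂` (Cauchy-Schwarz);
multiply by `G(a)` and integrate (Tonelli); the map `(ζ,ξ) ↦ (ζ, ζ-ξ)` preserves the product
measure.  Second part: `(∫ G(ζ-ξ) f(ξ) dξ)² ≤ (∫ G) ∫ G(ζ-ξ) f(ξ)² dξ` for a.e. `ζ`
(Cauchy-Schwarz) and `∫∫ G(ζ-ξ) f(ξ)² dξ dζ = (∫ G)(∫ f²)`.  Best done with `lintegral`. -/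
def YOUNG : Prop := ∀ (n : ℕ) (F G f : En n → ℝ), (∀ x, 0 ≤ F x) → (∀ x, 0 ≤ G x) →
  (∀ x, 0 ≤ f x) → Measurable F → Measurable G → Measurable f →
  Integrable (fun x => F x ^ 2) → Integrable G → Integrable (fun x => f x ^ 2) →
  (Integrable (fun p : En n × En n => F p.1 * (G (p.1 - p.2) * f p.2))
      ((volume : Measure (En n)).prod volume) ∧
    ∫ p : En n × En n, F p.1 * (G (p.1 - p.2) * f p.2)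
      ∂((volume : Measure (En n)).prod volume) ≤
      Real.sqrt (∫ x, F x ^ 2) * (∫ x, G x) * Real.sqrt (∫ x, f x ^ 2)) ∧
  ((∀ᵐ ζ : En n, Integrable (fun ξ => G (ζ - ξ) * f ξ)) ∧
    Integrable (fun ζ : En n => (∫ ξ, G (ζ - ξ) * f ξ) ^ 2) ∧
    ∫ ζ : En n, (∫ ξ, G (ζ - ξ) * f ξ) ^ 2 ≤ (∫ x, G x) ^ 2 * ∫ x, f x ^ 2)

/-- Symbol inequalities.
PROOF.  `1+|x+y|² ≤ 2(1+|x|²)(1+|y|²)` gives the first part (with `2π ζ = 2π ξ + 2π(ζ-ξ)`).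
Let `m = max (br ζ) (br ξ)`.  `|br ζ^s - br ξ^s| ≤ s |br ζ - br ξ| m^(s-1)` (mean value, `s ≥ 1`),
`|br ζ - br ξ| = 4π²||ζ|²-|ξ|²| ≤ 4π²|ζ-ξ|(|ζ|+|ξ|) ≤ 4π|ζ-ξ| m^(1/2)` (`2π|ζ| ≤ (br ζ)^(1/2)`).  So
it is `≤ 4πs|ζ-ξ| m^(s-1/2) = 4πs|ζ-ξ| m^(s/2) m^((s-1)/2)`, and `m ≤ 2 br ζ br(ζ-ξ)`,
`m ≤ 2 br ξ br(ζ-ξ)` by the first part (`br(-x) = br x`), so
`m^(s/2) m^((s-1)/2) ≤ 2^(s-1/2) br(ζ-ξ)^(s-1/2) br ζ^(s/2) br ξ^((s-1)/2)` and `s-1/2 = n/2`. -/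
def SYMB : Prop := ∀ n : ℕ, 1 ≤ n → (∀ ξ ζ : En n, br ζ ≤ 2 * br ξ * br (ζ - ξ)) ∧
  ∃ C > 0, ∀ ξ ζ : En n, |br ζ ^ sx n - br ξ ^ sx n| ≤
    C * (‖ζ - ξ‖ * br (ζ - ξ) ^ ((n : ℝ) / 2)) * (br ζ ^ (sx n / 2) * br ξ ^ ((sx n - 1) / 2))

/-- Fourier transform of a smooth function with compact support.
PROOF.  `χ` (as a complex function) is a Schwartz function (`HasCompactSupport`,
`toSchwartzMap`), so its Fourier transform is one: for every `k`, `‖a‖^k ‖hat χ a‖` is bounded;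
`br a ^ t ≤ br a ^ m ≤ C (1+‖a‖)^(2m)` for a natural number `m ≥ t`.  Fourier inversion
(`Continuous.fourierInv_fourier_eq` or the Schwartz version) gives the last claim. -/
def CUTF : Prop := ∀ (n : ℕ) (χ : En n → ℝ), IsCut χ →
  (∀ t : ℝ, Integrable (fun a : En n => br a ^ t * ‖hat χ a‖)) ∧
  (∀ t : ℝ, ∃ C, ∀ a : En n, br a ^ t * ‖hat χ a‖ ≤ C) ∧
  ∀ x : En n, (χ x : ℂ) = ∫ a, hat χ a * Complex.exp ((↑(2 * Real.pi * inner ℝ a x) * Complex.I))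

/-- Scaling.  PROOF.  Substitute `x = x₀ + ρ y` in `hat_eq`. -/
def CUTS : Prop := ∀ (n : ℕ) (x₀ : En n) (ρ : ℝ), 0 < ρ → ∀ ξ : En n,
  hat (cut x₀ ρ) ξ = (ρ : ℂ) ^ n * Complex.exp ((↑(-2 * Real.pi * inner ℝ x₀ ξ) * Complex.I)) *
    hat chi (ρ • ξ)

/-- Fourier transform of a product, and conjugation.
PROOF.  Insert the inversion formula for `χ` (`CUTF`) into `hat_eq` for `χ u` and use Fubini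
(`|hat χ(a)| |u(x)|` is integrable on the product).  Second claim: `χ` is real. -/
def PROD : Prop := ∀ (n : ℕ) (χ u : En n → ℝ), IsCut χ → Integrable u →
  (∀ ξ : En n, hat (fun x => χ x * u x) ξ = ∫ a, hat χ a * hat u (ξ - a)) ∧
  (∀ ξ : En n, hat (fun x => χ x * u x) ξ = ∫ ζ, hat χ (ξ - ζ) * hat u ζ) ∧
  ∀ a : En n, (starRingEnd ℂ) (hat χ a) = hat χ (-a)

/-- Multiplication by a cutoff is bounded.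
PROOF.  By `PROD` and `SYMB`: `br ζ^(s/2) |hat (χu) ζ| ≤ ∫ G(ζ-ξ) f(ξ) dξ` with
`G = 2^(s/2) br^(s/2)|hat χ|`, `f = br^(s/2)|hat u|` (`f² ` integrable since `Ad u`), for every `ζ`
(`G` is bounded and integrable, so the integrals converge).  `YOUNG`, second part:
`NN s (χu) ≤ (∫G)² NN s u`.  `χu` is continuous and integrable. -/
def MULT : Prop := ∀ n : ℕ, 1 ≤ n → ∃ C > 0, ∀ χ u : En n → ℝ, IsCut χ → Ad u →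
  Ad (fun x => χ x * u x) ∧
  NN (sx n) (fun x => χ x * u x) ≤ C * (∫ a : En n, br a ^ (sx n / 2) * ‖hat χ a‖) ^ 2 *
    NN (sx n) u

/-- The commutator inequality.
PROOF.  Let `v = χu` (`Ad` by `MULT`), `p = br^s`.  By `PROD`,
`pair (χv) u = Re ∫_ξ p(ξ) û(ξ) ∫_ζ conj(χ̂(ξ-ζ)) conj(v̂(ζ)) = Re ∫_ζ conj(v̂(ζ)) ∫_ξ χ̂(ζ-ξ) p(ξ) û(ξ)`
(Fubini: `p(ξ) ≤ p(ξ)^(1/2) (2 br ζ br(ζ-ξ))^(s/2)`, so the absolute value of the integrand is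
`≤ F(ζ) G₁(ζ-ξ) f₁(ξ)`, `F = p^(1/2)|v̂|`, `G₁ = 2^(s/2) br^(s/2)|χ̂|`, `f₁ = p^(1/2)|û|`; `YOUNG`), and
`NN s v = ∫_ζ p(ζ) conj(v̂(ζ)) ∫_ξ χ̂(ζ-ξ) û(ξ)`.  So
`|NN s v - pair (χv) u| ≤ ∫∫ |v̂(ζ)| |χ̂(ζ-ξ)| |p(ζ)-p(ξ)| |û(ξ)|
 ≤ C ∫∫ F(ζ) G(ζ-ξ) f(ξ)` with `G(a) = |a| br a^(n/2) |χ̂(a)|`, `f = br^((s-1)/2)|û|` (`SYMB`)
`≤ C √(NN s v) (∫G) √(NN (s-1) u) ≤ (1/2) NN s v + (1/2) C² (∫G)² NN (s-1) u`. -/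
def COMM : Prop := ∀ n : ℕ, 1 ≤ n → ∃ C > 0, ∀ χ u : En n → ℝ, IsCut χ → Ad u →
  NN (sx n) (fun x => χ x * u x) ≤ 2 * pair (fun x => χ x * (χ x * u x)) u +
    C * (∫ a : En n, ‖a‖ * br a ^ ((n : ℝ) / 2) * ‖hat χ a‖) ^ 2 * NN (sx n - 1) u

/-- Scaled forms.
PROOF.  By `CUTS`, `|hat (cut x₀ ρ) a| = ρ^n |hat chi (ρ a)|`; substitute `a = b/ρ`; with
`μ = max 1 ρ⁻¹`: `br(b/ρ) ≤ μ² br b`, so `∫ ‖a‖ br a^(n/2) |hat(cut)| ≤ ρ⁻¹ μ^n ∫ ‖b‖ br b^(n/2)|hat chi|`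
and `∫ br a^(s/2)|hat(cut)| ≤ μ^s ∫ br b^(s/2)|hat chi|`, `2s = n+1`.  The integrals for `chi` are
finite (`CUTF`).  `NN s (cut x₀ ρ) = ρ^(2n) ∫ br a^s |hat chi(ρ a)|² = ρ^n ∫ br(b/ρ)^s |hat chi b|²
≤ ρ^n NN s chi` for `ρ ≥ 1`. -/
def SCAL : Prop := ∀ n : ℕ, 1 ≤ n → ∃ C > 0, ∀ (x₀ : En n) (ρ : ℝ), 0 < ρ →
  (∀ u : En n → ℝ, Ad u →
    Ad (fun x => cut x₀ ρ x * u x) ∧
    NN (sx n) (fun x => cut x₀ ρ x * u x) ≤ C * (max 1 ρ⁻¹) ^ (n + 1) * NN (sx n) u ∧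
    NN (sx n) (fun x => cut x₀ ρ x * u x) ≤
      2 * pair (fun x => cut x₀ ρ x * (cut x₀ ρ x * u x)) u +
      C * (ρ⁻¹ ^ 2 * (max 1 ρ⁻¹) ^ (2 * n)) * NN (sx n - 1) u) ∧
  Ad (cut x₀ ρ) ∧ (1 ≤ ρ → NN (sx n) (cut x₀ ρ) ≤ C * ρ ^ n)

/-- Interpolation.
PROOF.  `s - 1 = (n-1)/2 ≥ 0`.  Where `br ξ ≥ 1/θ`: `br^(s-1) ≤ θ br^s`.  Where `br ξ < 1/θ`:
`br^(s-1) ≤ θ^(-(s-1)) `, `|û(ξ)| ≤ ∫|u|` (`norm_hat_le`), and this set is contained in the ball of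
radius `θ^(-1/2)`, of volume `ω_n θ^(-n/2)`; `θ^(-(s-1)-n/2) = θ^(-(n-1/2)) ≤ θ^(-n)`. -/
def INTP : Prop := ∀ n : ℕ, 1 ≤ n → ∃ C > 0, ∀ u : En n → ℝ, Ad u → ∀ θ : ℝ, 0 < θ → θ ≤ 1 →
  NN (sx n - 1) u ≤ θ * NN (sx n) u + C / θ ^ n * (∫ x, |u x|) ^ 2

/-- Vanishing moments.
PROOF.  `F(t) = ∫ e^{-tλ} f`, `λ = br ≥ 1`, `∫ λ^s |f| < ∞`, `M_j = ∫ λ^j f`.  Strong induction on `j`:
`|e^{-x} - ∑_{i<j} (-x)^i/i!| ≤ x^j/j!` for `x ≥ 0`, and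
`(e^{-x} - ∑_{i<j} (-x)^i/i!)/x^j → (-1)^j/j!` as `x → 0`, so by dominated convergence
(dominated by `λ^j |f|/j!`) `(F(t) - ∑_{i<j} (-t)^i M_i/i!)/t^j → (-1)^j M_j/j!` as `t → 0+`; the left
side is `F(t)/t^j → 0` because `|F(t)| ≤ C t^(s+1)` and `j ≤ s`. -/
def MOMV : Prop := ∀ n : ℕ, 1 ≤ n → ∀ f : En n → ℝ, Measurable f →
  Integrable (fun ξ : En n => br ξ ^ sx n * f ξ) →
  (∃ C : ℝ, ∀ t : ℝ, 0 < t → t ≤ 1 →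
    |∫ ξ : En n, Real.exp (-(t * br ξ)) * f ξ| ≤ C * t ^ (sx n + 1)) →
  ∀ j : ℕ, (j : ℝ) ≤ sx n → ∫ ξ : En n, br ξ ^ j * f ξ = 0

/-- The fractional moment.
PROOF.  `s = m - 1/2`, `m = (n+2)/2 ≥ 2`, `λ = br`.  Let `R(x) = e^{-x} - ∑_{j<m} (-x)^j/j!`;
`(-1)^m R(x) > 0` for `x > 0`, `|R(x)| ≤ x^m/m!` and `|R(x)| ≤ C (1 + x^(m-1))`, so
`c = ∫_0^∞ t^(-s-1) R(t) dt` converges absolutely and is `≠ 0`; substituting,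
`∫_0^∞ t^(-s-1) |R(tλ)| dt = |c| λ^s` and `∫_0^∞ t^(-s-1) R(tλ) dt = c λ^s`.  Since the moments of
order `j < m` vanish (`j ≤ m-1 ≤ s`), `∫ e^{-tλ} f = ∫ R(tλ) f`, and Fubini gives both claims. -/
def MOMC : Prop := ∀ n : ℕ, 1 ≤ n → Even n → ∃ c : ℝ, c ≠ 0 ∧ ∀ f : En n → ℝ, Measurable f →
  Integrable (fun ξ : En n => br ξ ^ sx n * f ξ) →
  (∀ j : ℕ, (j : ℝ) ≤ sx n → ∫ ξ : En n, br ξ ^ j * f ξ = 0) →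
  IntegrableOn (fun t : ℝ => t ^ (-sx n - 1) *
      ∫ ξ : En n, Real.exp (-(t * br ξ)) * f ξ) (Ioi 0) ∧
    c * ∫ ξ : En n, br ξ ^ sx n * f ξ = ∫ t in Ioi (0 : ℝ), t ^ (-sx n - 1) *
      ∫ ξ : En n, Real.exp (-(t * br ξ)) * f ξ

/-- The heat kernel.
PROOF.  `conj ĥ(ξ) v̂(ξ) = ∫∫ h(y) v(x) e^{2πi⟨y-x,ξ⟩} dx dy`; multiply by
`e^{-t br ξ} = e^{-t} e^{-4π²t|ξ|²}` (integrable), Fubini, and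
`∫ e^{-4π²t|ξ|²} e^{2πi⟨z,ξ⟩} dξ = (4πt)^(-n/2) e^{-|z|²/4t}` (`fourier_gaussian_innerProductSpace`). -/
def HEAT : Prop := ∀ n : ℕ, 1 ≤ n → ∀ h v : En n → ℝ, Integrable h → Integrable v →
  ∀ t : ℝ, 0 < t →
  ∫ ξ : En n, Real.exp (-(t * br ξ)) * ((starRingEnd ℂ) (hat h ξ) * hat v ξ).re =
    Real.exp (-t) * (4 * Real.pi * t) ^ (-((n : ℝ) / 2)) *
      ∫ y : En n, ∫ x : En n, Real.exp (-(‖x - y‖ ^ 2 / (4 * t))) * (h y * v x)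

/-- Functions with separated supports.
PROOF.  Let `f(ξ) = Re(conj ĥ v̂)`; `br^s |f|` is integrable (Cauchy-Schwarz).  Let
`F(t) = ∫ e^{-t br} f`, given by `HEAT`.  So `|F(t)| ≤ e^{-t}(4πt)^(-n/2) ∫∫ e^{-|x-y|²/4t}|h||v|`
`≤ (4πt)^(-n/2) e^{-δ²/4t} ‖h‖₁‖v‖₁ ≤ C t^(s+1)` for `t ≤ 1`.  By `MOMV` all moments of order `≤ s`
vanish.  `n` odd: `s` is a natural number, `pair h v = ∫ br^s f = 0`.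
`n` even (`MOMC`): `|pair h v| ≤ |c|⁻¹ ∫_0^∞ t^(-s-1)|F(t)| dt ≤ C ∫∫ |h(y)||v(x)| [∫_0^∞ t^(-s-1-n/2)
e^{-t-|x-y|²/4t} dt]`, and with `r = |x-y|`: `t + r²/4t ≥ r`, so
`e^{-t-r²/4t} ≤ e^{-r/2} e^{-r²/8t}`, `∫_0^∞ t^(-s-1-n/2) e^{-r²/8t} dt = C r^(-2s-n) = C r^(-(2n+1))`. -/
def OFFD : Prop := ∀ n : ℕ, 1 ≤ n → ∃ C > 0, ∀ h v : En n → ℝ, Ad h → Ad v → ∀ δ : ℝ, 0 < δ →
  (∀ x y : En n, h y ≠ 0 → v x ≠ 0 → δ ≤ ‖x - y‖) →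
  |pair h v| ≤ C * ∫ y, |h y| * ∫ x, kap (x - y) * |v x| ∧ (Odd n → pair h v = 0)

/-- The kernel.
PROOF.  `e^{-r} = ∫_0^∞ (πt)^(-1/2) e^{-t-r²/4t} dt` (`r ≥ 0`; see also
Pool/Agent/Helper67/MaxMeas/PD.lean), the Fourier transform of `e^{-|x|²/4t}` is
`(4πt)^(n/2) e^{-4π²t|ξ|²}`, so by Fubini `K̂(ξ) = π^(-1/2)(4π)^(n/2) ∫_0^∞ t^((n-1)/2) e^{-t br ξ} dt
= C br ξ^(-(n+1)/2)`, and `C = CK n` at `ξ = 0`.  Polar coordinates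
(`integral_fun_norm_addHaar`): `CK n = n ω_n ∫_0^∞ r^(n-1) e^{-r} dr = n! ω_n`.
`br^(-s) ≤ C (1+‖ξ‖)^(-(n+1))` is integrable. -/
def FK : Prop := ∀ n : ℕ, 1 ≤ n → Integrable (fun x : En n => Real.exp (-‖x‖)) ∧ 0 < CK n ∧
  CK n = (n.factorial : ℝ) * (volume : Measure (En n)).real (ball 0 1) ∧
  Integrable (fun ξ : En n => br ξ ^ (-sx n)) ∧
  ∀ ξ : En n, hat (fun x : En n => Real.exp (-‖x‖)) ξ = ((CK n * br ξ ^ (-sx n) : ℝ) : ℂ)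

/-- Potentials.
PROOF.  Let `U = potential τ = K * τ`.  Continuous (dominated convergence), integrable
(`∫ U = CK n τ(ℝⁿ)`), `Û(ξ) = CK n br ξ^(-s) τ̂(ξ)`, `τ̂(ξ) = ∫ e^{-2πi⟨x,ξ⟩} dτ(x)`, by Fubini and
`FK`; `|τ̂| ≤ τ(ℝⁿ)` so `br^s |Û|² ≤ C br^(-s)` is integrable: `Ad U`.  For `Ad h`: `ĥ` is integrable
(`|ĥ| = br^(-s/2) br^(s/2)|ĥ|`, Cauchy-Schwarz), so `h(x) = ∫ ĥ(ξ) e^{2πi⟨ξ,x⟩} dξ`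
(`Continuous.fourierInv_fourier_eq`), and
`pair h U = Re CK n ∫ conj ĥ(ξ) τ̂(ξ) dξ = CK n Re ∫ [∫ conj ĥ(ξ) e^{-2πi⟨x,ξ⟩} dξ] dτ(x)
= CK n ∫ h dτ`. -/
def PAIRU : Prop := ∀ n : ℕ, 1 ≤ n → ∀ τ : Measure (En n), IsFiniteMeasure τ →
  Ad (potential τ) ∧ ∀ h : En n → ℝ, Ad h → pair h (potential τ) = CK n * ∫ x, h x ∂τ

/-- Pairing with the constant `1`.
PROOF.  By `CUTS`, substituting `ξ = ζ/M`, `pair h (cut x₀ M) =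
∫ br(ζ/M)^s Re(conj ĥ(ζ/M) e^{-2πi⟨x₀,ζ/M⟩} hat chi ζ) dζ`.  As `M → ∞` the integrand tends to
`Re(conj ĥ(0) hat chi ζ)` and is bounded by `br(ζ)^s ‖h‖₁ |hat chi ζ|` (`M ≥ 1`), integrable by
`CUTF`.  So the limit is `ĥ(0) ∫ hat chi = (∫ h) chi(0) = ∫ h`. -/
def PAIR1 : Prop := ∀ n : ℕ, 1 ≤ n → ∀ (x₀ : En n) (h : En n → ℝ), Ad h →
  Filter.Tendsto (fun M : ℝ => pair h (cut x₀ M)) Filter.atTop (𝓝 (∫ x, h x))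

/-- Integrability of `kap` away from `0`.
PROOF.  For `‖z‖ ≥ R`: `kap z ≤ R^(-(2n+1)) e^{-‖z‖/2} ≤ R^(-(2n+1)) e^{-R/4} e^{-‖z‖/4}`. -/
def KAPI : Prop := ∀ n : ℕ, 1 ≤ n →
  (∀ R : ℝ, 0 < R → IntegrableOn (kap : En n → ℝ) {z | R ≤ ‖z‖}) ∧
  ∃ C > 0, ∀ R : ℝ, 1 / 2 ≤ R → ∫ z in {z : En n | R ≤ ‖z‖}, kap z ≤ C * Real.exp (-(R / 4))

/-- Local representation of the pairing with `u = cut x₀ ρ * g`.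
PROOF.  Let `U = potential τ`, `χ₁ = cut x₀ ρ`, `g = U - 1`, `u = χ₁ g = χ₁U - χ₁` (`Ad` by `SCAL`,
`PAIRU`; `Ad` is stable under differences).  For `M ≥ 2ρ`, `cut x₀ M = 1` on the support of `χ₁`, so
`v_M := U - cut x₀ M - u = (1-χ₁)(U - cut x₀ M)` (`Ad`), and by linearity of `pair`
`pair h u = pair h U - pair h (cut x₀ M) - pair h v_M`.  `pair h U = CK n ∫ h dτ` (`PAIRU`),
`pair h (cut x₀ M) → ∫ h` (`PAIR1`).  If `h y ≠ 0` and `v_M x ≠ 0` then `‖y-x₀‖ ≤ ρ/2`,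
`‖x-x₀‖ > ρ`, so `‖x-y‖ ≥ ρ/2`, and by `OFFD`
`|pair h v_M| ≤ C ∫|h(y)| ∫ kap(x-y) (1-χ₁(x)) |U(x) - cut x₀ M x| dx dy`, which tends to
`C ∫ |h y| tl τ x₀ ρ y dy` (dominated convergence: `U` is bounded, `kap` is integrable on
`‖z‖ ≥ ρ/2` by `KAPI`).  `n` odd: `pair h v_M = 0`. -/
def KEYF : Prop := ∀ n : ℕ, 1 ≤ n → ∃ C > 0, ∀ (τ : Measure (En n)), IsFiniteMeasure τ →
  ∀ (x₀ : En n) (ρ : ℝ), 0 < ρ → Ad (fun x => cut x₀ ρ x * gg τ x) ∧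
  ∀ h : En n → ℝ, Ad h → (∀ y, h y ≠ 0 → ‖y - x₀‖ ≤ ρ / 2) →
  |pair h (fun x => cut x₀ ρ x * gg τ x) - (CK n * ∫ x, h x ∂τ - ∫ x, h x)| ≤
    C * ∫ y, |h y| * tl τ x₀ ρ y ∧
  (Odd n → pair h (fun x => cut x₀ ρ x * gg τ x) = CK n * ∫ x, h x ∂τ - ∫ x, h x)

/-- Uniform bounds.
PROOF.  Let `U = potential τ`, `S = τ.support` (`τ(Sᶜ) = 0`).  If `τ = 0` everything is trivial.
If `z ∈ S` then `1 = U z ≥ e^{-2} τ(closedBall z 2)`.  A ball `closedBall x 1` of positive measure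
contains a point `z ∈ S` and lies in `closedBall z 2`, so `τ(closedBall x 1) ≤ e²` for all `x`.
For `z ∈ S`, by Tonelli `∫ e^{-‖z-x‖/2} τ(closedBall x 1) dx = ∫ [∫_{closedBall y 1} e^{-‖z-x‖/2} dx]
dτ(y) ≥ e^{-1/2} ω_n ∫ e^{-‖z-y‖/2} dτ(y)`, so `∫ e^{-‖z-y‖/2} dτ(y) ≤ C(n)`.  For any `x` let `z` be a
nearest point of `S`; for `y ∈ S`, `‖z-y‖ ≤ ‖z-x‖+‖x-y‖ ≤ 2‖x-y‖`, so
`U x = ∫ e^{-‖x-y‖} dτ ≤ ∫ e^{-‖z-y‖/2} dτ ≤ C(n)`; `U ≥ 0`, so `|g| ≤ max 1 C(n)`.  In the same way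
`∫_{closedBall x (r+1)} τ(closedBall y 1) dy ≥ ω_n τ(closedBall x r)` gives
`τ(closedBall x r) ≤ e² (r+1)^n`. -/
def BDD : Prop := ∀ n : ℕ, 1 ≤ n → ∃ C > 0, ∀ (X : Set (En n)) (τ : Measure (En n)), KT X τ →
  (∀ x, |gg τ x| ≤ C) ∧ ∀ (x : En n) (r : ℝ), 0 ≤ r → τ.real (closedBall x r) ≤ C * (1 + r) ^ n

/-- General step, no condition on the position of the ball.
PROOF.  `χ = cut x₀ (ρ/4)`, `u = cut x₀ ρ * g`; since `cut x₀ ρ = 1` where `χ ≠ 0` (`‖x-x₀‖ < ρ/2`),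
`χu = χg`, `h := χ(χu) = χ²g` (`Ad`, `SCAL`), `h y ≠ 0 → ‖y-x₀‖ ≤ ρ/2`.  `SCAL`:
`NN s (χg) ≤ 2 pair h u + C (4/ρ)² (max 1 (4/ρ))^(2n) NN (s-1) u`, `NN (s-1) u ≤ NN s u`
(`Ad.NN_mono`), `max 1 (4/ρ) ≤ 4`.  `KEYF` and `BDD` (`|g| ≤ C₁`):
`|pair h u| ≤ CK n ∫|h| dτ + ∫|h| + C∫|h| tl ≤ C(τ(closedBall x₀ (ρ/2)) + ρ^n) ≤ C' ρ^n`, since
`tl τ x₀ ρ y ≤ C₁ ∫_{‖z‖ ≥ ρ/2} kap ≤ C` for `‖y-x₀‖ ≤ ρ/2`, `ρ ≥ 1` (`KAPI`). -/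
def STEPA : Prop := ∀ n : ℕ, 1 ≤ n → ∃ C > 0, ∀ (X : Set (En n)) (τ : Measure (En n)), KT X τ →
  ∀ (x₀ : En n) (ρ : ℝ), 1 ≤ ρ →
  NN (sx n) (fun x => cut x₀ (ρ / 4) x * gg τ x) ≤
    C * ρ ^ n + C / ρ ^ 2 * NN (sx n) (fun x => cut x₀ ρ x * gg τ x)

/-- A priori bound (constant depending on `τ`).
PROOF.  `cut g = cut U - cut`; `NN s (f₁ - f₂) ≤ 2 NN s f₁ + 2 NN s f₂`;
`SCAL` (`NN s (cut U) ≤ C NN s U` for `ρ ≥ 1`, `NN s cut ≤ C ρ^n`). -/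
def APRI : Prop := ∀ n : ℕ, 1 ≤ n → ∀ τ : Measure (En n), IsFiniteMeasure τ → ∀ x₀ : En n,
  ∃ B : ℝ, ∀ ρ : ℝ, 1 ≤ ρ → NN (sx n) (fun x => cut x₀ ρ x * gg τ x) ≤ B * ρ ^ n

/-- Step in the interior.
PROOF.  As in `STEPA` with `h = χ²g ≥ 0` (`g ≥ 0` on `closedBall x₀ (ρ/2) ⊆ X`), `∫ h dτ = 0`
(`g = 0` on `τ.support`, `τ(supportᶜ) = 0`).  `KEYF`: `pair h u ≤ -∫h + C∫ h tl ≤ -(1/2)∫h` if
`C tl ≤ 1/2` on `closedBall x₀ (ρ/2)`.  So `NN s (χg) ≤ -∫h + C (4/ρ)²(max 1 (4/ρ))^(2n) NN (s-1) u`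
and `max 1 (4/ρ) ≤ 4 max 1 ρ⁻¹`; `h = χ²|g|`. -/
def STEPB : Prop := ∀ n : ℕ, 1 ≤ n → ∃ C > 0, ∀ (X : Set (En n)) (τ : Measure (En n)), KT X τ →
  ∀ (x₀ : En n) (ρ : ℝ), 0 < ρ → closedBall x₀ (ρ / 2) ⊆ X →
  (∀ y, ‖y - x₀‖ ≤ ρ / 2 → C * tl τ x₀ ρ y ≤ 1 / 2) →
  NN (sx n) (fun x => cut x₀ (ρ / 4) x * gg τ x) + ∫ x, cut x₀ (ρ / 4) x ^ 2 * |gg τ x| ≤
    C * (ρ⁻¹ ^ 2 * (max 1 ρ⁻¹) ^ (2 * n)) * NN (sx n - 1) (fun x => cut x₀ ρ x * gg τ x)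

/-- Bound for the tail.
PROOF.  Let `ρ = M/4^j`, `‖y-x₀‖ ≤ ρ/2`.  Where `1 - cut x₀ ρ x ≠ 0`, `‖x-x₀‖ > ρ` and
`‖x-y‖ ≥ ‖x-x₀‖ - ρ/2 ≥ ‖x-x₀‖/2`.  Part `‖x-x₀‖ ≥ M`: `‖x-y‖ ≥ M/2`, contribution
`≤ C C₁ ∫_{‖z‖ ≥ M/2} kap ≤ 1/4` for `M` large (`BDD`, `KAPI`).  Part
`M/4^(i+1) ≤ ‖x-x₀‖ < M/4^i`, `i < j`: `kap(x-y) ≤ (M/(2·4^(i+1)))^(-(2n+1))` and
`∫ |g| over ‖x-x₀‖ ≤ M/4^i` is `≤ ∫ cut x₀ (M/4^i)² |g|` (`cut x₀ (M/4^i) = 1` there). -/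
def TAIL : Prop := ∀ n : ℕ, 1 ≤ n → ∀ C : ℝ, 0 < C → ∃ M₁ ≥ 1, ∀ M : ℝ, M₁ ≤ M →
  ∀ (X : Set (En n)) (τ : Measure (En n)), KT X τ → ∀ (x₀ : En n) (j : ℕ) (y : En n),
  ‖y - x₀‖ ≤ M / 4 ^ j / 2 → C * tl τ x₀ (M / 4 ^ j) y ≤ 1 / 4 +
    C * ∑ i ∈ Finset.range j, 2 ^ (2 * n + 1) * (4 ^ (i + 1) / M) ^ (2 * n + 1) *
      ∫ x, cut x₀ (M / 4 ^ i) x ^ 2 * |gg τ x|

/-- Large scales, pure real analysis.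
PROOF.  Choose `M ≥ M₁` with `C 4^(n+1)/M² ≤ 1/2`.  (a) `y_i = z(4^i M)/(4^(i+1) M)^n` (`i ≥ 0`) is
bounded (by `B`), and by the first inequality with `ρ = 4^(i+1) M`:
`y_i ≤ C + (C/ρ²) 4^n y_(i+1) ≤ C + (1/2) y_(i+1)`; so `Y = sup y_i ≤ C + Y/2`, `y_i ≤ 2C`.
(b) By the third inequality with `ρ = 4^i M` (`i ≥ 0`, as long as `4^i M/2 ≤ L`):
`z(4^(i-1) M) + a(4^(i-1) M) ≤ (C/(16^i M²)) z(4^i M) ≤ (1/2) 4^(-n) z(4^i M)` (for `i = 0` this is the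
statement for `M/4`).  Iterating from `i = 1` to `J`: `z(M) + a(M) ≤ (2·4^n)^(-J) z(4^J M) ≤
(2·4^n)^(-J) 2C (4^(J+1) M)^n = 2^(-J) 2C (4M)^n`, and
`z(M/4) + a(M/4) ≤ (1/2) z(M)`.  Choose `J` with `2^(-J) 2C (4M)^n ≤ ε` and `L = 4^J M/2`. -/
def SEQL : Prop := ∀ (n : ℕ) (C M₁ : ℝ), 0 < C → 1 ≤ M₁ → ∃ M ≥ M₁, ∀ ε : ℝ, 0 < ε →
  ∃ L > 0, ∀ z a : ℝ → ℝ, (∀ ρ, 0 ≤ z ρ) → (∀ ρ, 0 ≤ a ρ) →
  (∀ ρ : ℝ, 1 ≤ ρ → z (ρ / 4) ≤ C * ρ ^ n + C / ρ ^ 2 * z ρ) →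
  (∃ B : ℝ, ∀ ρ : ℝ, 1 ≤ ρ → z ρ ≤ B * ρ ^ n) →
  (∀ ρ : ℝ, M₁ ≤ ρ → ρ / 2 ≤ L → z (ρ / 4) + a (ρ / 4) ≤ C / ρ ^ 2 * z ρ) →
  z M + a M ≤ ε ∧ z (M / 4) + a (M / 4) ≤ ε

/-- Small scales, pure real analysis.
PROOF.  Put `b = 2n+1`, `d = 2n+2`.  Claim: for suitable `γ ≥ n+1` natural and `ε' ≤ 1` small,
`Φ_j ≤ ε' 4^(-γj)` for all `j`; for `j = 0, 1` it holds if `ε = ε' 4^(-γ)`.  Induction step `j ≥ 1`: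
with `γ ≥ b+1`: `C ∑_{i<j} 4^(b(i+1)) Φ_i ≤ C ε' 4^b ∑ 4^(-i) ≤ 2 C ε' 4^b ≤ 1/4`, so the hypothesis
applies; take `θ = θ₀ 4^(-dj)`, `θ₀ = min 1 (4^(-γ)/(2C))`: the first term is
`≤ C θ₀ ε' 4^(-γj) ≤ (1/2) ε' 4^(-γ(j+1))`, the second is
`C² 4^(dj) θ₀^(-n) 4^(dnj) ε'² 4^(-2γ(j-1)) ≤ (1/2) ε' 4^(-γ(j+1))` if `γ ≥ d(n+1)` and
`2 C² θ₀^(-n) 4^(3γ) ε' ≤ 1`. -/
def SEQS : Prop := ∀ (n : ℕ) (C : ℝ), 0 < C → ∃ ε > 0, ∀ Φ : ℕ → ℝ, (∀ j, 0 ≤ Φ j) →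
  Φ 0 ≤ ε → Φ 1 ≤ ε →
  (∀ j : ℕ, 1 ≤ j → C * ∑ i ∈ Finset.range j, 4 ^ ((2 * n + 1) * (i + 1)) * Φ i ≤ 1 / 4 →
    ∀ θ : ℝ, 0 < θ → θ ≤ 1 →
    Φ (j + 1) ≤ C * 4 ^ ((2 * n + 2) * j) * (θ * Φ j + C / θ ^ n * Φ (j - 1) ^ 2)) →
  ∀ j, Φ j ≤ 1 / 4 ^ ((n + 1) * j)

/-- The potential is exactly `1` at deep points.
PROOF.  `z(ρ) = NN s (cut x₀ ρ g)`, `a(ρ) = ∫ cut x₀ ρ ² |g|` (nondecreasing as far as needed: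
`cut x₀ ρ ≤ (cut x₀ (4ρ))²`).  Constants: `C` the maximum of those of `STEPA`, `STEPB`, `INTP` (and
1); `M₁` from `TAIL` for the constant of `STEPB`; for `ρ ≥ M₁`, `TAIL` with `M = ρ`, `j = 0` gives
`C_B tl ≤ 1/4`, so `STEPB` applies and, as `NN (s-1) ≤ NN s` and `ρ ≥ 1`, it is the third
hypothesis of `SEQL` (when `closedBall x₀ L ⊆ X`); `STEPA` is the first, `APRI` the second.  So
`z(M) + a(M) ≤ ε`, `z(M/4) + a(M/4) ≤ ε` for the `ε` of `SEQS`, `L = L(n)`.  (If `L < M/2` increase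
it: `closedBall x₀ (M/2) ⊆ X` is also needed below.)  Put `Φ_j = z(M/4^j) + a(M/4^j)`.  If the sum
condition of `SEQS` holds at `j` (constant `C' ≥ 2^(2n+1) C_B`, and `M ≥ 1`), `TAIL` gives
`C_B tl ≤ 1/2` for `ρ = M/4^j`, and `STEPB` with `INTP`:
`Φ_(j+1) ≤ C_B ρ⁻² max(1,ρ⁻¹)^(2n) (θ z(ρ) + C/θ^n (∫ cut x₀ ρ |g|)²)`, where `ρ⁻¹ ≤ 4^j` and
`∫ cut x₀ ρ |g| ≤ a(4ρ) ≤ Φ_(j-1)`.  By `SEQS`, `a(M/4^j) ≤ 4^(-(n+1)j)` for all `j`.  If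
`|g(x₀)| = 2η > 0`, then `|g| ≥ η` on a ball, and `a(M/4^j) ≥ η vol(closedBall x₀ (M/4^j)) =
η ω_n M^n 4^(-nj)` for large `j`, a contradiction. -/
def ZERO : Prop := ∀ n : ℕ, 1 ≤ n → ∃ L > 0, ∀ (X : Set (En n)) (τ : Measure (En n)), KT X τ →
  ∀ x₀ : En n, closedBall x₀ L ⊆ X → gg τ x₀ = 0

/-- The density at deep points.
PROOF.  Let `L₀` be from `ZERO`.  Let `R ≥ 4`, `closedBall x₀ (L₀ + R) ⊆ X`.  Then `g = 0` on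
`closedBall x₀ R`, `cut x₀ (R/2) g = 0` everywhere, so for every smooth `h ≥ 0` with compact support
in `ball x₀ 1` (`Ad`: apply `SCAL` and `MULT` or `CUTF`; `1 ≤ (R/2)/2`), `KEYF` with `ρ = R/2` gives
`|CK n ∫ h dτ - ∫ h| ≤ C ∫ h tl ≤ C' e^{-R/16} ∫ h` (`BDD`, `KAPI`: `‖x-y‖ ≥ R/4 ≥ 1/2` where
`1 - cut ≠ 0`), and `CK n ∫ h dτ = ∫ h` for odd `n` (`pair h 0 = 0`).  So the measures
`CK n τ` and `volume` satisfy `(1-ε) vol ≤ CK n τ ≤ (1+ε) vol` on all measurable subsets of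
`ball x₀ 1` (outer/inner regularity; equality for odd `n`).  A measurable `A` all of whose points
satisfy `closedBall x (L₀+R) ⊆ X` is a countable disjoint union of measurable pieces each
contained in a ball `ball x_i 1` with `x_i ∈ A`.  Take `L = L₀ + 4`, `r = L₀ + R`, `c = 1/16`,
`C = C' e^{L₀/16}`. -/
def DENS : Prop := ∀ n : ℕ, 1 ≤ n → ∃ L C c : ℝ, 0 < L ∧ 0 < C ∧ 0 < c ∧
  ∀ (X : Set (En n)) (τ : Measure (En n)), IsCompact X → KT X τ → ∀ (r : ℝ) (A : Set (En n)),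
  L ≤ r → MeasurableSet A → (∀ x ∈ A, closedBall x r ⊆ X) →
  |CK n * τ.real A - (volume : Measure (En n)).real A| ≤
    C * Real.exp (-(c * r)) * (volume : Measure (En n)).real A ∧
  (Odd n → CK n * τ.real A = (volume : Measure (En n)).real A)

end Pool.Agent.Helper70.MB
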